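import Pool.Agent.H562.WM.Inst

/-! Gluing smooth functions which differ from a given one in disjoint balls. -/

set_option autoImplicit false

namespace Pool.Agent.H562.WM

open Filter Topology MeasureTheory Set Metric
open scoped ENNReal NNReal

variable {d : ℕ}

lemma iter_congr {F : Type*} [NormedAddCommGroup F] [NormedSpace ℝ F] {a b : (Fin d → ℝ) → F}
    {x : Fin d → ℝ} (h : a =ᶠ[𝓝 x] b) (m : ℕ) : iteratedFDeriv ℝ m a x = iteratedFDeriv ℝ m b x :=
  (h.iteratedFDeriv ℝ m).eq_of_nhds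

lemma glue {ι : Type*} [Countable ι] {F : Type*} [NormedAddCommGroup F] [NormedSpace ℝ F]
    (c : ι → (Fin d → ℝ)) (ρ r : ι → ℝ) (hr : ∀ i, r i < ρ i)
    (hdis : ∀ i j, i ≠ j → Disjoint (ball (c i) (ρ i)) (ball (c j) (ρ j)))
    (hlf : LocallyFinite fun i => closedBall (c i) (r i)) (f0 : (Fin d → ℝ) → F)
    (f : ι → (Fin d → ℝ) → F) (hf0 : ContDiff ℝ (⊤ : ℕ∞) f0) (hf : ∀ i, ContDiff ℝ (⊤ : ℕ∞) (f i))
    (hout : ∀ i x, x ∉ closedBall (c i) (r i) → f i x = f0 x) :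
    ∃ g : (Fin d → ℝ) → F, ContDiff ℝ (⊤ : ℕ∞) g ∧
      (∀ i, ∀ x ∈ ball (c i) (ρ i), g x = f i x) ∧
      (∀ x, (∀ i, x ∉ closedBall (c i) (r i)) → g x = f0 x) ∧
      ∀ m : ℕ, ∫⁻ x, ENNReal.ofReal (‖iteratedFDeriv ℝ m (fun x => g x - f0 x) x‖ ^ 2) ≤
        ∑' i, ∫⁻ x, ENNReal.ofReal (‖iteratedFDeriv ℝ m (fun x => f i x - f0 x) x‖ ^ 2) := by
  classical
  let g : (Fin d → ℝ) → F := fun x => if h : ∃ i, x ∈ ball (c i) (ρ i) then f h.choose x else f0 x
  have hA : ∀ i, ∀ x ∈ ball (c i) (ρ i), g x = f i x := by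
    intro i x hx
    have h : ∃ i, x ∈ ball (c i) (ρ i) := ⟨i, hx⟩
    have hi : h.choose = i := by
      by_contra hne
      exact Set.disjoint_left.1 (hdis _ _ hne) h.choose_spec hx
    change (if h : ∃ i, x ∈ ball (c i) (ρ i) then f h.choose x else f0 x) = f i x
    rw [dif_pos h, hi]
  have hB : ∀ x, (∀ i, x ∉ closedBall (c i) (r i)) → g x = f0 x := by
    intro x hx
    by_cases h : ∃ i, x ∈ ball (c i) (ρ i)
    · obtain ⟨i, hi⟩ := h
      rw [hA i x hi, hout i x (hx i)]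
    · change (if h : ∃ i, x ∈ ball (c i) (ρ i) then f h.choose x else f0 x) = f0 x
      rw [dif_neg h]
  have hC : IsClosed (⋃ i, closedBall (c i) (r i)) := hlf.isClosed_iUnion fun i => isClosed_closedBall
  have hin : ∀ i, closedBall (c i) (r i) ⊆ ball (c i) (ρ i) := fun i =>
    closedBall_subset_ball (hr i)
  have hN1 : ∀ i, ∀ x ∈ closedBall (c i) (r i), g =ᶠ[𝓝 x] f i := by
    intro i x hx
    filter_upwards [isOpen_ball.mem_nhds (hin i hx)] with y hy using hA i y hy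
  have hN2 : ∀ x ∉ (⋃ i, closedBall (c i) (r i)), g =ᶠ[𝓝 x] f0 := by
    intro x hx
    filter_upwards [hC.isOpen_compl.mem_nhds hx] with y hy
    refine hB y fun i hi => hy (mem_iUnion.2 ⟨i, hi⟩)
  refine ⟨g, ?_, hA, hB, fun m => ?_⟩
  · rw [contDiff_iff_contDiffAt]
    intro x
    by_cases hx : x ∈ ⋃ i, closedBall (c i) (r i)
    · obtain ⟨i, hi⟩ := mem_iUnion.1 hx
      exact (hf i).contDiffAt.congr_of_eventuallyEq (hN1 i x hi)
    · exact hf0.contDiffAt.congr_of_eventuallyEq (hN2 x hx)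
  · have hD1 : ∀ i, ∀ x ∈ closedBall (c i) (r i),
        iteratedFDeriv ℝ m (fun x => g x - f0 x) x = iteratedFDeriv ℝ m (fun x => f i x - f0 x) x := by
      intro i x hx
      refine iter_congr ?_ m
      filter_upwards [hN1 i x hx] with y hy
      rw [hy]
    have hD2 : ∀ x ∉ (⋃ i, closedBall (c i) (r i)),
        iteratedFDeriv ℝ m (fun x => g x - f0 x) x = 0 := by
      intro x hx
      have h1 : (fun x => g x - f0 x) =ᶠ[𝓝 x] fun _ => (0 : F) := by
        filter_upwards [hN2 x hx] with y hy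
        rw [hy, sub_self]
      rw [iter_congr h1 m]
      simp
    set G : (Fin d → ℝ) → ℝ≥0∞ := fun x =>
      ENNReal.ofReal (‖iteratedFDeriv ℝ m (fun x => g x - f0 x) x‖ ^ 2) with hG
    rw [← lintegral_add_compl G hC.measurableSet]
    have h1 : ∫⁻ x in (⋃ i, closedBall (c i) (r i))ᶜ, G x = 0 := by
      have h2 : ∫⁻ x in (⋃ i, closedBall (c i) (r i))ᶜ, G x =
          ∫⁻ x in (⋃ i, closedBall (c i) (r i))ᶜ, 0 := by
        refine setLIntegral_congr_fun hC.measurableSet.compl fun x hx => ?_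
        change ENNReal.ofReal (‖iteratedFDeriv ℝ m (fun x => g x - f0 x) x‖ ^ 2) = 0
        rw [hD2 x hx]
        simp
      rw [h2]
      simp
    rw [h1, add_zero]
    refine (lintegral_iUnion_le _ _).trans (ENNReal.tsum_le_tsum fun i => ?_)
    calc ∫⁻ x in closedBall (c i) (r i), G x = ∫⁻ x in closedBall (c i) (r i),
          ENNReal.ofReal (‖iteratedFDeriv ℝ m (fun x => f i x - f0 x) x‖ ^ 2) := by
          refine setLIntegral_congr_fun isClosed_closedBall.measurableSet fun x hx => ?_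
          change ENNReal.ofReal (‖iteratedFDeriv ℝ m (fun x => g x - f0 x) x‖ ^ 2) = _
          rw [hD1 i x hx]
      _ ≤ _ := setLIntegral_le_lintegral _ _

lemma lint_lt {F : Type*} [NormedAddCommGroup F] [NormedSpace ℝ F] {f0 f1 : (Fin d → ℝ) → F}
    (hf0 : ContDiff ℝ (⊤ : ℕ∞) f0) (hf1 : ContDiff ℝ (⊤ : ℕ∞) f1) {c : Fin d → ℝ} {r : ℝ}
    (hout : ∀ x, x ∉ closedBall c r → f1 x = f0 x) (m : ℕ) {η : ℝ}
    (h : ∫ x, ‖iteratedFDeriv ℝ m (fun x => f1 x - f0 x) x‖ ^ 2 ≤ η) :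
    ∫⁻ x, ENNReal.ofReal (‖iteratedFDeriv ℝ m (fun x => f1 x - f0 x) x‖ ^ 2) ≤ ENNReal.ofReal η := by
  have hs : ContDiff ℝ (⊤ : ℕ∞) (fun x => f1 x - f0 x) := hf1.sub hf0
  have hcs : HasCompactSupport (fun x => f1 x - f0 x) := by
    refine HasCompactSupport.intro (isCompact_closedBall c r) fun x hx => ?_
    rw [hout x hx, sub_self]
  have hcs2 : HasCompactSupport (fun x => ‖iteratedFDeriv ℝ m (fun x => f1 x - f0 x) x‖ ^ 2) := by
    have h1 := hcs.iteratedFDeriv (𝕜 := ℝ) m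
    exact h1.comp_left (g := fun y => ‖y‖ ^ 2) (by simp)
  have hcont : Continuous (fun x => ‖iteratedFDeriv ℝ m (fun x => f1 x - f0 x) x‖ ^ 2) :=
    ((hs.continuous_iteratedFDeriv (by exact_mod_cast le_top)).norm).pow 2
  have hint := hcont.integrable_of_hasCompactSupport hcs2 (μ := volume)
  rw [← ofReal_integral_eq_lintegral_ofReal hint (ae_of_all _ fun x => sq_nonneg _)]
  exact ENNReal.ofReal_le_ofReal h

end Pool.Agent.H562.WM
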