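import Pool.Graph.R_seed8.Y276.WM.Asm

/-! Infinitely many blow-up points: gluing the local modifications of the data. -/

set_option autoImplicit false

namespace Pool.Agent.H562.WM

open Filter Topology MeasureTheory Set
open Pool.Agent.Y276.WM
open scoped ENNReal NNReal

variable {d n : ℕ}

/-- `S` is locally finite: every ball contains only finitely many points of `S` -/
def LocFin (S : Set (Fin d → ℝ)) : Prop :=
  ∀ R : ℝ, (S ∩ {x | ∑ i, x i ^ 2 ≤ R ^ 2}).Finite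

lemma dist_sq_le (x y : Fin d → ℝ) : dist x y ^ 2 ≤ ∑ i, (x i - y i) ^ 2 := by
  have h0 : (0:ℝ) ≤ ∑ i, (x i - y i) ^ 2 := Finset.sum_nonneg fun i _ => sq_nonneg _
  have h1 : dist x y ≤ √(∑ i, (x i - y i) ^ 2) := by
    refine (dist_pi_le_iff (Real.sqrt_nonneg _)).2 fun i => ?_
    rw [Real.dist_eq]
    refine Real.abs_le_sqrt ?_
    exact Finset.single_le_sum (f := fun i => (x i - y i) ^ 2) (fun i _ => sq_nonneg _)
      (Finset.mem_univ i)
  calc dist x y ^ 2 ≤ (√(∑ i, (x i - y i) ^ 2)) ^ 2 := by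
        exact pow_le_pow_left₀ dist_nonneg h1 2
    _ = _ := Real.sq_sqrt h0

lemma dist_lt_of_sum {x y : Fin d → ℝ} {r : ℝ} (hr : 0 < r) (h : ∑ i, (x i - y i) ^ 2 < r ^ 2) :
    dist x y < r :=
  lt_of_pow_lt_pow_left₀ 2 hr.le ((dist_sq_le x y).trans_lt h)

lemma sum_le_dist (x y : Fin d → ℝ) : ∑ i, (x i - y i) ^ 2 ≤ d * dist x y ^ 2 := by
  calc ∑ i, (x i - y i) ^ 2 ≤ ∑ _i : Fin d, dist x y ^ 2 := by
        refine Finset.sum_le_sum fun i _ => ?_
        have h1 : dist (x i) (y i) ≤ dist x y := dist_le_pi_dist x y i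
        rw [Real.dist_eq] at h1
        calc (x i - y i) ^ 2 = |x i - y i| ^ 2 := (sq_abs _).symm
          _ ≤ dist x y ^ 2 := pow_le_pow_left₀ (abs_nonneg _) h1 2
    _ = d * dist x y ^ 2 := by rw [Finset.sum_const, Finset.card_univ, Fintype.card_fin,
        nsmul_eq_mul]

lemma LocFin.finite_closedBall {S : Set (Fin d → ℝ)} (hS : LocFin S) (x : Fin d → ℝ) (r : ℝ) :
    (S ∩ Metric.closedBall x r).Finite := by
  have h := hS ((d + 1 : ℝ) * (dist x 0 + |r|))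
  refine h.subset fun y hy => ⟨hy.1, ?_⟩
  have h1 : dist y 0 ≤ dist x 0 + |r| := by
    have := dist_triangle y x 0
    have h2 : dist y x ≤ r := hy.2
    have := le_abs_self r
    linarith
  have h2 := sum_le_dist y 0
  simp only [Pi.zero_apply, sub_zero] at h2
  change ∑ i, y i ^ 2 ≤ _
  refine h2.trans ?_
  have h3 : dist y 0 ^ 2 ≤ (dist x 0 + |r|) ^ 2 := pow_le_pow_left₀ dist_nonneg h1 2
  have h4 : (d : ℝ) ≤ (d + 1) ^ 2 := by
    have : (0:ℝ) ≤ d := Nat.cast_nonneg d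
    nlinarith
  rw [mul_pow]
  exact mul_le_mul h4 h3 (sq_nonneg _) (sq_nonneg _)

lemma LocFin.countable {S : Set (Fin d → ℝ)} (hS : LocFin S) : S.Countable := by
  have h : S = ⋃ k : ℕ, S ∩ Metric.closedBall 0 (k : ℝ) := by
    rw [← inter_iUnion, Metric.iUnion_closedBall_nat, inter_univ]
  rw [h]
  exact countable_iUnion fun k => (hS.finite_closedBall 0 _).countable

lemma LocFin.exists_sep {S : Set (Fin d → ℝ)} (hS : LocFin S) (s : Fin d → ℝ) :
    ∃ r : ℝ, 0 < r ∧ r ≤ 1 ∧ ∀ s' ∈ S, s' ≠ s → r ≤ dist s s' := by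
  have hF : ((S ∩ Metric.closedBall s 1) \ {s}).Finite := (hS.finite_closedBall s 1).diff
  have hopen : IsOpen (((S ∩ Metric.closedBall s 1) \ {s})ᶜ) := hF.isClosed.isOpen_compl
  obtain ⟨r, hr, hr2⟩ := Metric.isOpen_iff.1 hopen s (by simp)
  refine ⟨min r 1, lt_min hr one_pos, min_le_right _ _, fun s' hs' hne => ?_⟩
  by_contra hlt
  push Not at hlt
  have h1 : dist s' s < r := by rw [dist_comm]; exact hlt.trans_le (min_le_left _ _)
  have h2 : dist s' s ≤ 1 := by rw [dist_comm]; exact (hlt.trans_le (min_le_right _ _)).le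
  exact hr2 h1 ⟨⟨hs', h2⟩, hne⟩

lemma IsWaveMap.congr_data {Ω : Set (Fin (d + 1) → ℝ)}
    {u0 u1 w0 w1 : (Fin d → ℝ) → (Fin (n + 1) → ℝ)} {u : (Fin (d + 1) → ℝ) → (Fin (n + 1) → ℝ)}
    (h : IsWaveMap Ω u0 u1 u)
    (h2 : ∀ x : Fin d → ℝ, (Fin.cons 0 x : Fin (d + 1) → ℝ) ∈ Ω → u0 x = w0 x ∧ u1 x = w1 x) :
    IsWaveMap Ω w0 w1 u :=
  ⟨h.smooth, h.pos, h.eqn, fun x hx => ⟨(h.init x hx).1.trans (h2 x hx).1,
    (h.init x hx).2.trans (h2 x hx).2⟩⟩

end Pool.Agent.H562.WM
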