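import Pool.Agent.H562.WM.Glue

/-! Wave maps into hyperbolic space: breakdown at infinitely many prescribed positions. -/

set_option autoImplicit false

namespace Pool.Agent.H562.WM

open Filter Topology MeasureTheory Set Metric
open Pool.Agent.Y276.WM
open scoped ENNReal NNReal

variable {d n : ℕ}

theorem many (hd : 3 ≤ d) (hn : 1 ≤ n) (v0 v1 : (Fin d → ℝ) → (Fin (n + 1) → ℝ))
    (hv0 : ContDiff ℝ (⊤ : ℕ∞) v0) (hv1 : ContDiff ℝ (⊤ : ℕ∞) v1)
    (hpos : ∀ x, 0 < v0 x (Fin.last n)) (S : Set (Fin d → ℝ)) (ε : (Fin d → ℝ) → ℝ) (δ : ℝ)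
    (hS : LocFin S) (hε : ∀ s ∈ S, 0 < ε s) (hδ : 0 < δ) :
    ∃ (u0 u1 : (Fin d → ℝ) → (Fin (n + 1) → ℝ)) (T : (Fin d → ℝ) → ℝ),
      ContDiff ℝ (⊤ : ℕ∞) u0 ∧ ContDiff ℝ (⊤ : ℕ∞) u1 ∧ (∀ x, 0 < u0 x (Fin.last n)) ∧
      (∀ x, (∀ s ∈ S, ε s ^ 2 ≤ ∑ i, (x i - s i) ^ 2) → u0 x = v0 x ∧ u1 x = v1 x) ∧
      (∀ m : ℕ, 2 * m < d → ∫⁻ x, ENNReal.ofReal
        (‖iteratedFDeriv ℝ m (fun x => u0 x - v0 x) x‖ ^ 2) < ENNReal.ofReal δ) ∧
      (∀ m : ℕ, 2 * (m + 1) < d → ∫⁻ x, ENNReal.ofReal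
        (‖iteratedFDeriv ℝ m (fun x => u1 x - v1 x) x‖ ^ 2) < ENNReal.ofReal δ) ∧
      ∀ s ∈ S, 0 < T s ∧ T s < ε s ∧
        (∃ u, IsWaveMap (cone (T s) s \ {Fin.cons (T s) s}) u0 u1 u) ∧
        (∀ u, IsWaveMap (cone (T s) s \ {Fin.cons (T s) s}) u0 u1 u →
          Tendsto (fun t => u (Fin.cons t s) (Fin.last n)) (𝓝[<] (T s)) (𝓝 0)) ∧
        ∀ (Ω : Set (Fin (d + 1) → ℝ)) (u : (Fin (d + 1) → ℝ) → (Fin (n + 1) → ℝ)),
          cone (T s) s ⊆ Ω → ¬ IsWaveMap Ω u0 u1 u := by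
  classical
  have : Countable S := hS.countable.to_subtype
  have hδ' : ENNReal.ofReal δ ≠ 0 := by simpa using hδ
  obtain ⟨η, hη0, hηs⟩ := ENNReal.exists_pos_sum_of_countable hδ' S
  choose r hr0 hr1 hr using fun s : S => hS.exists_sep (s : Fin d → ℝ)
  -- the radii
  set ρ : S → ℝ := fun s => r s / 4 with hρ
  set κ : S → ℝ := fun s => min (min (ε s) (r s / 8)) (η s) with hκ
  have hκ0 : ∀ s, 0 < κ s := fun s => lt_min (lt_min (hε s s.2) (by have := hr0 s; positivity))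
    (by exact_mod_cast hη0 s)
  have hκρ : ∀ s, κ s < ρ s := by
    intro s
    have h1 : κ s ≤ r s / 8 := (min_le_left _ _).trans (min_le_right _ _)
    have h2 := hr0 s
    change κ s < r s / 4
    linarith
  have hκε : ∀ s : S, κ s ≤ ε s := fun s => (min_le_left _ _).trans (min_le_left _ _)
  have hκη : ∀ s : S, κ s ≤ η s := fun s => min_le_right _ _
  have hdis : ∀ i j : S, i ≠ j → Disjoint (ball (i : Fin d → ℝ) (ρ i)) (ball (j : Fin d → ℝ) (ρ j)) := by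
    intro i j hij
    have hne : (j : Fin d → ℝ) ≠ i := fun h => hij (Subtype.ext h).symm
    have h1 := hr i j j.2 hne
    have h2 := hr j i i.2 hne.symm
    rw [dist_comm] at h2
    refine ball_disjoint_ball ?_
    change r i / 4 + r j / 4 ≤ _
    have := hr0 i
    have := hr0 j
    linarith
  have hlf : LocallyFinite fun i : S => closedBall (i : Fin d → ℝ) (κ i) := by
    intro x
    refine ⟨ball x 1, ball_mem_nhds x one_pos, ?_⟩
    have hfin := hS.finite_closedBall x 2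
    refine Set.Finite.of_finite_image (f := fun i : S => (i : Fin d → ℝ)) (hfin.subset ?_)
      (Subtype.val_injective.injOn)
    rintro _ ⟨i, ⟨y, hy1, hy2⟩, rfl⟩
    refine ⟨i.2, ?_⟩
    have h1 : dist y (i : Fin d → ℝ) ≤ κ i := hy1
    have h2 : dist y x < 1 := hy2
    have h3 : κ i < 1 := by
      have := hκρ i
      have h4 : ρ i = r i / 4 := rfl
      have := hr1 i
      have := hr0 i
      linarith
    change dist (i : Fin d → ℝ) x ≤ 2
    have := dist_triangle (i : Fin d → ℝ) y x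
    rw [dist_comm] at h1
    linarith
  choose U0 U1 T hU0 hU1 hUp hUo hUs0 hUs1 hT0 hT1 hex hbu hno using fun s : S =>
    Pool.Agent.Y276.WM.main d n hd hn v0 v1 hv0 hv1 hpos (s : Fin d → ℝ) (κ s) (hκ0 s)
  have hout : ∀ (i : S) x, x ∉ closedBall (i : Fin d → ℝ) (κ i) → U0 i x = v0 x ∧ U1 i x = v1 x := by
    intro i x hx
    refine hUo i x ?_
    have h1 : κ i < dist x (i : Fin d → ℝ) := by
      rw [mem_closedBall] at hx
      exact lt_of_not_ge hx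
    calc κ i ^ 2 ≤ dist x (i : Fin d → ℝ) ^ 2 := pow_le_pow_left₀ (hκ0 i).le h1.le 2
      _ ≤ _ := dist_sq_le _ _
  obtain ⟨u0, hu0, hA0, hB0, hI0⟩ := glue (fun i : S => (i : Fin d → ℝ)) ρ κ hκρ hdis hlf v0 U0 hv0
    hU0 fun i x hx => (hout i x hx).1
  obtain ⟨u1, hu1, hA1, hB1, hI1⟩ := glue (fun i : S => (i : Fin d → ℝ)) ρ κ hκρ hdis hlf v1 U1 hv1
    hU1 fun i x hx => (hout i x hx).2
  have hsum : ∑' i : S, ENNReal.ofReal (κ i) < ENNReal.ofReal δ := by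
    refine lt_of_le_of_lt (ENNReal.tsum_le_tsum fun i => ?_) hηs
    rw [← ENNReal.ofReal_coe_nnreal]
    exact ENNReal.ofReal_le_ofReal (hκη i)
  refine ⟨u0, u1, fun s => if h : s ∈ S then T ⟨s, h⟩ else 1, hu0, hu1, ?_, ?_, ?_, ?_, ?_⟩
  · intro x
    by_cases hx : ∃ i : S, x ∈ ball (i : Fin d → ℝ) (ρ i)
    · obtain ⟨i, hi⟩ := hx
      rw [hA0 i x hi]
      exact hUp i x
    · rw [hB0 x fun i hi => hx ⟨i, closedBall_subset_ball (hκρ i) hi⟩]
      exact hpos x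
  · intro x hx
    by_cases hx2 : ∃ i : S, x ∈ ball (i : Fin d → ℝ) (ρ i)
    · obtain ⟨i, hi⟩ := hx2
      rw [hA0 i x hi, hA1 i x hi]
      refine hUo i x ?_
      exact (pow_le_pow_left₀ (hκ0 i).le (hκε i) 2).trans (hx i i.2)
    · have h1 : ∀ i : S, x ∉ closedBall (i : Fin d → ℝ) (κ i) := fun i hi =>
        hx2 ⟨i, closedBall_subset_ball (hκρ i) hi⟩
      exact ⟨hB0 x h1, hB1 x h1⟩
  · intro m hm
    refine ((hI0 m).trans (ENNReal.tsum_le_tsum fun i => ?_)).trans_lt hsum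
    exact lint_lt hv0 (hU0 i) (fun x hx => (hout i x hx).1) m (hUs0 i m hm).le
  · intro m hm
    refine ((hI1 m).trans (ENNReal.tsum_le_tsum fun i => ?_)).trans_lt hsum
    exact lint_lt hv1 (hU1 i) (fun x hx => (hout i x hx).2) m (hUs1 i m hm).le
  · intro s hs
    have hTs : (if h : s ∈ S then T ⟨s, h⟩ else 1) = T ⟨s, hs⟩ := dif_pos hs
    simp only [hTs]
    set i : S := ⟨s, hs⟩ with hi
    -- the data on the base of the cone
    have hbase : ∀ x : Fin d → ℝ, (Fin.cons 0 x : Fin (d + 1) → ℝ) ∈ cone (T i) s →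
        u0 x = U0 i x ∧ u1 x = U1 i x := by
      intro x hx
      have h1 : ∑ j : Fin d, (x j - s j) ^ 2 ≤ T i ^ 2 := by
        have := hx.2.2
        simpa using this
      have h2 : ∑ j : Fin d, (x j - s j) ^ 2 < ρ i ^ 2 := by
        refine h1.trans_lt ?_
        exact pow_lt_pow_left₀ ((hT1 i).trans (hκρ i)) (hT0 i).le two_ne_zero
      have h3 : x ∈ ball (i : Fin d → ℝ) (ρ i) :=
        dist_lt_of_sum (lt_trans (hκ0 i) (hκρ i)) h2
      exact ⟨hA0 i x h3, hA1 i x h3⟩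
    refine ⟨hT0 i, (hT1 i).trans_le (hκε i), ?_, ?_, ?_⟩
    · obtain ⟨u, hu⟩ := hex i
      refine ⟨u, IsWaveMap.congr_data hu fun x hx => ?_⟩
      have := hbase x hx.1
      exact ⟨this.1.symm, this.2.symm⟩
    · intro u hu
      refine hbu i u (IsWaveMap.congr_data hu fun x hx => ?_)
      exact hbase x hx.1
    · intro Ω u hΩ hu
      exact hno i (cone (T i) s) u subset_rfl
        (IsWaveMap.congr_data (hu.mono hΩ) fun x hx => hbase x hx)

/-- instantaneous breakdown -/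
theorem instant (hd : 3 ≤ d) (hn : 1 ≤ n) (v0 v1 : (Fin d → ℝ) → (Fin (n + 1) → ℝ))
    (hv0 : ContDiff ℝ (⊤ : ℕ∞) v0) (hv1 : ContDiff ℝ (⊤ : ℕ∞) v1)
    (hpos : ∀ x, 0 < v0 x (Fin.last n)) (R0 δ : ℝ) (hδ : 0 < δ) :
    ∃ (u0 u1 : (Fin d → ℝ) → (Fin (n + 1) → ℝ)),
      ContDiff ℝ (⊤ : ℕ∞) u0 ∧ ContDiff ℝ (⊤ : ℕ∞) u1 ∧ (∀ x, 0 < u0 x (Fin.last n)) ∧
      (∀ x, ∑ i, x i ^ 2 ≤ R0 ^ 2 → u0 x = v0 x ∧ u1 x = v1 x) ∧
      (∀ m : ℕ, 2 * m < d → ∫⁻ x, ENNReal.ofReal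
        (‖iteratedFDeriv ℝ m (fun x => u0 x - v0 x) x‖ ^ 2) < ENNReal.ofReal δ) ∧
      (∀ m : ℕ, 2 * (m + 1) < d → ∫⁻ x, ENNReal.ofReal
        (‖iteratedFDeriv ℝ m (fun x => u1 x - v1 x) x‖ ^ 2) < ENNReal.ofReal δ) ∧
      ∀ τ R : ℝ, 0 < τ → ∀ u : (Fin (d + 1) → ℝ) → (Fin (n + 1) → ℝ),
        ¬ IsWaveMap {P | 0 ≤ P 0 ∧ P 0 ≤ τ ∧ R ^ 2 ≤ ∑ i : Fin d, P i.succ ^ 2} u0 u1 u := by
  classical
  let i0 : Fin d := ⟨0, by omega⟩
  let pt : ℕ → (Fin d → ℝ) := fun k => Pi.single i0 (k : ℝ)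
  have hpt : ∀ k, ∑ i, pt k i ^ 2 = (k : ℝ) ^ 2 := by
    intro k
    rw [Finset.sum_eq_single i0]
    · change (Pi.single i0 (k : ℝ) : Fin d → ℝ) i0 ^ 2 = _
      rw [Pi.single_eq_same]
    · intro b _ hb
      change (Pi.single i0 (k : ℝ) : Fin d → ℝ) b ^ 2 = _
      rw [Pi.single_eq_of_ne hb]
      norm_num
    · intro h
      exact absurd (Finset.mem_univ _) h
  have hS0 : LocFin (range pt) := by
    intro R
    have hfin : {k : ℕ | (k : ℝ) ≤ |R|}.Finite := by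
      obtain ⟨N, hN⟩ := exists_nat_ge |R|
      refine (finite_le_nat N).subset fun k hk => ?_
      have : (k : ℝ) ≤ N := le_trans hk hN
      exact_mod_cast this
    refine (hfin.image pt).subset ?_
    rintro _ ⟨⟨k, rfl⟩, hk⟩
    refine ⟨k, ?_, rfl⟩
    have h1 : (k : ℝ) ^ 2 ≤ R ^ 2 := by
      rw [← hpt k]; exact hk
    change (k : ℝ) ≤ |R|
    have := sq_le_sq.1 h1
    rwa [Nat.abs_cast] at this
  have hS : LocFin (pt '' {k : ℕ | |R0| + 1 ≤ k}) := fun R =>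
    (hS0 R).subset (inter_subset_inter_left _ (image_subset_range _ _))
  obtain ⟨u0, u1, T, h1, h2, h3, h4, h5, h6, h7⟩ := many hd hn v0 v1 hv0 hv1 hpos
    (pt '' {k : ℕ | |R0| + 1 ≤ k})
    (fun s => 1 / (1 + ∑ i, s i ^ 2)) δ hS
    (fun s _ => by
      have : (0:ℝ) ≤ ∑ i, s i ^ 2 := Finset.sum_nonneg fun i _ => sq_nonneg _
      positivity) hδ
  refine ⟨u0, u1, h1, h2, h3, fun x hx => h4 x ?_, h5, h6, fun τ R hτ u hu => ?_⟩
  · rintro _ ⟨k, hk, rfl⟩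
    have hk' : |R0| + 1 ≤ (k : ℝ) := hk
    have e1 : x i0 ≤ |R0| := by
      have e2 : x i0 ^ 2 ≤ R0 ^ 2 := (Finset.single_le_sum (f := fun i : Fin d => x i ^ 2)
        (fun i _ => sq_nonneg _) (Finset.mem_univ i0)).trans hx
      exact (le_abs_self _).trans (sq_le_sq.1 e2)
    have e3 : (x i0 - k) ^ 2 ≤ ∑ i : Fin d, (x i - pt k i) ^ 2 := by
      have e4 := Finset.single_le_sum (f := fun i : Fin d => (x i - pt k i) ^ 2)
        (fun i _ => sq_nonneg _) (Finset.mem_univ i0)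
      have h10 : pt k i0 = (k : ℝ) := Pi.single_eq_same _ _
      simp only [h10] at e4
      exact e4
    have e5 : (1 : ℝ) ≤ (x i0 - k) ^ 2 := by nlinarith
    refine le_trans ?_ (e5.trans e3)
    rw [hpt k]
    refine pow_le_one₀ (by positivity) ?_
    rw [div_le_one (by positivity)]
    nlinarith [sq_nonneg (k : ℝ)]
  obtain ⟨k, hk⟩ := exists_nat_ge (|R| + 1 + 1 / τ + |R0|)
  have hτ' : 0 < 1 / τ := by positivity
  have hR := abs_nonneg R
  have hR0 := abs_nonneg R0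
  have hk1 : |R| + 1 ≤ k := by linarith
  have hk2 : 1 / τ ≤ k := by linarith
  have hk3 : (1:ℝ) ≤ k := by linarith
  have hk4 : |R0| + 1 ≤ (k : ℝ) := by linarith
  obtain ⟨hT0, hT1, -, -, hno⟩ := h7 (pt k) ⟨k, hk4, rfl⟩
  rw [hpt k] at hT1
  have hT2 : T (pt k) ≤ τ := by
    refine hT1.le.trans ?_
    rw [div_le_iff₀ (by positivity)]
    have h8 : 1 ≤ τ * k := by
      rw [div_le_iff₀ hτ] at hk2
      linarith
    nlinarith
  have hT3 : T (pt k) ≤ 1 := by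
    refine hT1.le.trans ?_
    rw [div_le_one (by positivity)]
    nlinarith
  refine hno _ u ?_ hu
  rintro P ⟨hP0, hP1, hP2⟩
  refine ⟨hP0, hP1.trans hT2, ?_⟩
  have h8 : (P i0.succ - k) ^ 2 ≤ 1 := by
    have h9 : (P i0.succ - pt k i0) ^ 2 ≤ ∑ i : Fin d, (P i.succ - pt k i) ^ 2 :=
      Finset.single_le_sum (f := fun i : Fin d => (P i.succ - pt k i) ^ 2)
        (fun i _ => sq_nonneg _) (Finset.mem_univ i0)
    have h10 : pt k i0 = (k : ℝ) := Pi.single_eq_same _ _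
    rw [h10] at h9
    have h11 : (T (pt k) - P 0) ^ 2 ≤ 1 := by
      have : 0 ≤ T (pt k) - P 0 := by linarith
      have : T (pt k) - P 0 ≤ 1 := by linarith
      nlinarith
    linarith
  have h9 : |R| ≤ P i0.succ := by
    have : -1 ≤ P i0.succ - k := by
      by_contra hlt
      push Not at hlt
      nlinarith
    linarith
  calc R ^ 2 = |R| ^ 2 := (sq_abs R).symm
    _ ≤ P i0.succ ^ 2 := pow_le_pow_left₀ (abs_nonneg R) h9 2
    _ ≤ _ := Finset.single_le_sum (f := fun i : Fin d => P i.succ ^ 2)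
        (fun i _ => sq_nonneg _) (Finset.mem_univ i0)

end Pool.Agent.H562.WM
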